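import Pool.Agent.H98.PW.Stmts

/-!
# PW, row LFT: integer polynomials of bounded degree with moderate coefficients
-/

set_option autoImplicit false

namespace Pool.PW

open Finset Filter MvPolynomial Pool.Agent.H98.ABCR

theorem lft_thm : S_LFT := by
  classical
  intro U X n D B H hH
  have hmem : ∀ c : Fin n →₀ ℕ, (fun m => (((H m).coeff c : ℤ) : ℚ)) ∈ Modr U X := by
    intro c
    refine ⟨B, fun m => (H m).coeff c, fun _ => 1, ?_⟩
    filter_upwards [hH] with m hm
    refine ⟨one_ne_zero, by simp, hm.2 c, ?_⟩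
    have h2 : (1 : ℝ) ≤ mm X m := by unfold mm; linarith [abs_nonneg (X m)]
    simpa using one_le_pow₀ h2
  refine ⟨∑ c ∈ Finset.Iic (Finsupp.equivFunOnFinite.symm (fun _ : Fin n => D)),
    monomial c (⟨_, hmem c⟩ : Modr U X), ?_⟩
  filter_upwards [hH] with m hm
  unfold lv
  rw [map_sum]
  ext c
  rw [coeff_sum, coeff_map]
  have h1 : ∀ b : Fin n →₀ ℕ, coeff c (map (lam m) (monomial b (⟨_, hmem b⟩ : Modr U X))) =
      if b = c then (((H m).coeff b : ℤ) : ℚ) else 0 := by
    intro b
    rw [map_monomial, coeff_monomial]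
    rfl
  rw [Finset.sum_congr rfl (fun b _ => h1 b)]
  by_cases hc : c ∈ Finset.Iic (Finsupp.equivFunOnFinite.symm (fun _ : Fin n => D))
  · rw [Finset.sum_ite_eq' , if_pos hc]
    rfl
  · rw [Finset.sum_ite_eq', if_neg hc]
    have h0 : (H m).coeff c = 0 := by
      by_contra hne
      apply hc
      rw [Finset.mem_Iic]
      intro k
      have h3 : (c.sum fun _ e => e) ≤ (H m).totalDegree := le_totalDegree (mem_support_iff.2 hne)
      have h4 : c k ≤ c.sum fun _ e => e := by
        by_cases hk : k ∈ c.support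
        · exact Finset.single_le_sum (f := fun i => c i) (fun _ _ => Nat.zero_le _) hk
        · rw [Finsupp.notMem_support_iff.1 hk]; exact Nat.zero_le _
      exact h4.trans (h3.trans hm.1)
    rw [h0]
    simp

end Pool.PW
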