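import Pool.Agent.H98.PW.Stmts

/-!
# PW, row PWN: no large families (assembly)
-/

set_option autoImplicit false

namespace Pool.PW

open Finset Filter MvPolynomial Pool.Agent.H98.ABCR

namespace PWNx

variable {U : Ultrafilter ℕ} {X : ℕ → ℝ} {n : ℕ}

/-- the value as a ring homomorphism -/
noncomputable def evH (m : ℕ) (x : Fin n → ℕ) : RP U X n →+* ℚ :=
  (eval (fun k => (x k : ℚ))).comp (map (lam m))

lemma evH_eq (m : ℕ) (x : Fin n → ℕ) (F : RP U X n) : ev m x F = evH m x F := rfl

/-- the ideal of a family -/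
def vanI (T : ℕ → Finset (Fin n → ℕ)) : Ideal (RP U X n) where
  carrier := {F | Van T F}
  add_mem' := by
    intro F H hF hH
    simp only [Set.mem_ofPred_eq, Van] at *
    filter_upwards [hF, hH] with m h1 h2 x hx
    rw [evH_eq, map_add, ← evH_eq, ← evH_eq, h1 x hx, h2 x hx, add_zero]
  zero_mem' := by
    simp only [Set.mem_ofPred_eq, Van]
    exact Eventually.of_forall fun m x _ => by rw [evH_eq, map_zero]
  smul_mem' := by
    intro F H hH
    simp only [Set.mem_ofPred_eq, Van] at *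
    filter_upwards [hH] with m h1 x hx
    rw [evH_eq, smul_eq_mul, map_mul, ← evH_eq, ← evH_eq, h1 x hx, mul_zero]

lemma mem_vanI {T : ℕ → Finset (Fin n → ℕ)} {F : RP U X n} : F ∈ vanI T ↔ Van T F := Iff.rfl

lemma null_mem {T : ℕ → Finset (Fin n → ℕ)} {F : RP U X n} (h : Null F) : F ∈ vanI T := by
  rw [mem_vanI]
  unfold Null at h
  unfold Van
  filter_upwards [h] with m hm x _
  unfold ev
  rw [hm, map_zero]

lemma large_two {T : ℕ → Finset (Fin n → ℕ)} (hX : Tendsto X U atTop) (h : Large U X T) :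
    ∀ᶠ m in (U : Filter ℕ), 2 ≤ (T m).card := by
  obtain ⟨c, hc, h⟩ := h
  have h1 : Tendsto (fun m => X m ^ c) U atTop := (tendsto_rpow_atTop hc).comp hX
  filter_upwards [h, h1.eventually_ge_atTop 2] with m h2 h3
  have : ((2 : ℕ) : ℝ) ≤ ((T m).card : ℝ) := by push_cast; linarith
  exact_mod_cast this

lemma log_mm (hX : Tendsto X U atTop) (B : ℕ) (c : ℝ) (hc : 0 < c) :
    ∀ᶠ m in (U : Filter ℕ), (B : ℝ) * Real.log (mm X m) ≤ X m ^ c := by
  have hB : (0 : ℝ) < 2 * B + 1 := by positivity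
  have h1 := (isLittleO_log_rpow_atTop hc).bound (c := 1 / (2 * B + 1)) (by positivity)
  filter_upwards [hX.eventually h1, hX.eventually_ge_atTop 2] with m h2 h3
  have hX0 : (0 : ℝ) < X m := by linarith
  have h4 : mm X m ≤ X m ^ 2 := by
    unfold mm
    rw [abs_of_pos hX0]
    nlinarith
  have h5 : Real.log (mm X m) ≤ 2 * Real.log (X m) := by
    have h6 : 0 < mm X m := by unfold mm; positivity
    calc Real.log (mm X m) ≤ Real.log (X m ^ 2) := Real.log_le_log h6 h4
      _ = 2 * Real.log (X m) := by rw [Real.log_pow]; norm_num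
  have h6 : 0 ≤ Real.log (X m) := Real.log_nonneg (by linarith)
  have h7 : 0 ≤ X m ^ c := Real.rpow_nonneg hX0.le c
  rw [Real.norm_of_nonneg h6, Real.norm_of_nonneg h7] at h2
  have h8 : (2 * B + 1) * Real.log (X m) ≤ X m ^ c := by
    rw [one_div, inv_mul_eq_div, le_div_iff₀ hB] at h2
    linarith
  have hB0 : (0 : ℝ) ≤ B := by positivity
  calc (B : ℝ) * Real.log (mm X m) ≤ B * (2 * Real.log (X m)) :=
        mul_le_mul_of_nonneg_left h5 hB0
    _ ≤ (2 * B + 1) * Real.log (X m) := by nlinarith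
    _ ≤ X m ^ c := h8

/-- not every point is a zero of a product of polynomials which do not vanish -/
lemma not_van_prod (hP : S_PRM) {T : ℕ → Finset (Fin n → ℕ)} (hX : Tendsto X U atTop)
    (hT : Gen U X T) {ι : Type} (s : Finset ι) (F : ι → RP U X n)
    (h : ∀ k ∈ s, ¬ Van T (F k)) : ¬ Van T (∏ k ∈ s, F k) := by
  classical
  induction s using Finset.induction_on with
  | empty =>
    intro hv
    rw [Finset.prod_empty] at hv
    unfold Van at hv
    obtain ⟨m, h1, h2⟩ := (hv.and (large_two hX hT.1)).exists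
    have h3 : (T m).Nonempty := Finset.card_pos.1 (by omega)
    obtain ⟨x, hx⟩ := h3
    have h4 := h1 x hx
    rw [evH_eq, map_one] at h4
    exact one_ne_zero h4
  | insert a s ha ih =>
    intro hv
    rw [Finset.prod_insert ha] at hv
    rcases (hP U X n T hX hT).1 _ _ hv with h1 | h1
    · exact h a (Finset.mem_insert_self a s) h1
    · exact ih (fun k hk => h k (Finset.mem_insert_of_mem hk)) h1

/-- proportional coprime sums are equal -/
lemma prop_eq {a b c a' b' c' : ℕ} (ha' : 0 < a') (h : a + b = c)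
    (h' : a' + b' = c') (hc : a.Coprime b) (hc' : a'.Coprime b') (e1 : a * c' = a' * c) :
    a = a' ∧ b = b' ∧ c = c' := by
  have g1 : a.Coprime c := by rw [← h]; simpa using hc
  have g2 : a'.Coprime c' := by rw [← h']; simpa using hc'
  have d1 : c ∣ c' := by
    have : c ∣ a * c' := by rw [e1]; exact dvd_mul_left _ _
    exact (g1.symm.dvd_mul_left).1 this
  have d2 : c' ∣ c := by
    have : c' ∣ a' * c := by rw [← e1]; exact dvd_mul_left _ _
    exact (g2.symm.dvd_mul_left).1 this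
  have e2 : c = c' := Nat.dvd_antisymm d1 d2
  subst e2
  have hcpos : 0 < c := by omega
  have e3 : a = a' := Nat.eq_of_mul_eq_mul_right hcpos e1
  exact ⟨e3, by omega, rfl⟩

lemma tm_pos {e : Fin n → ℕ} {sd : Fin n → Fin 3} {α : Fin 3 → ℕ} {s : Fin 3} {x : Fin n → ℕ}
    (h : ∀ s, 0 < α s) (hx : ∀ k, 1 ≤ x k) : 0 < tm e sd α s x := by
  unfold tm
  exact Nat.mul_pos (h s) (Finset.prod_pos fun k _ => pow_pos (hx k) _)

lemma eval_pt (x : Fin n → ℕ) (g : MvPolynomial (Fin n) ℤ) :
    eval (fun k => (x k : ℚ)) (map (Int.castRingHom ℚ) g) = ((eval (pt x) g : ℤ) : ℚ) := by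
  have h : (fun k => (x k : ℚ)) = fun k => Int.castRingHom ℚ (pt x k) := by
    funext k
    simp [pt]
  rw [h, eval_map]
  exact (eval₂_comp_left (Int.castRingHom ℚ) (RingHom.id ℤ) (pt x) g).symm

end PWNx

open PWNx in
theorem pwn_thm (hGEN : S_GEN) (hCHN : S_CHN) (hSTB : S_STB) (hVST : S_VST) (hNOEF : S_NOEF)
    (hSEL : S_SEL) (hPATH : S_PATH) (hPRM : S_PRM) (hMAP : S_MAP) (hHTE : S_HTE) : S_PWN := by
  classical
  intro U X n T e sd α hX hBox hEqn hL
  -- a generic subfamily
  obtain ⟨T0, hT0, hG⟩ := hGEN U X n T hX hL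
  have hBox0 : Box U X T0 := by
    unfold Box at *
    filter_upwards [hBox] with m hm x hx using hm x (hT0 m hx)
  have hE0 : Eqn U X T0 e sd α := by
    refine ⟨hEqn.pos, ?_, ?_, ?_, ?_, hEqn.exp, ?_⟩
    · filter_upwards [hEqn.sum] with m hm x hx using hm x (hT0 m hx)
    · filter_upwards [hEqn.cop] with m hm x hx using hm x (hT0 m hx)
    · intro K
      filter_upwards [hEqn.big K] with m hm x hx using hm x (hT0 m hx)
    · intro c hc
      filter_upwards [hEqn.sml c hc] with m hm x hx using hm x (hT0 m hx)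
    · filter_upwards [hEqn.inj] with m hm x hx y hy using hm x (hT0 m hx) y (hT0 m hy)
  obtain ⟨J, G, g, hch⟩ := hCHN U X n T0 hX hG
  -- the exponents as moderate sequences
  have hes : ∀ k, (fun m => (e m k : ℚ)) ∈ Modr U X := by
    intro k
    refine ⟨1, fun m => (e m k : ℤ), fun _ => 1, ?_⟩
    filter_upwards [hEqn.exp 1 one_pos] with m hm
    have h1 : (1 : ℝ) ≤ mm X m := by unfold mm; linarith [abs_nonneg (X m)]
    have h2 : X m ≤ mm X m := by unfold mm; linarith [le_abs_self (X m)]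
    refine ⟨one_ne_zero, by simp, ?_, by simpa using h1⟩
    have h3 := hm k
    rw [Real.rpow_one] at h3
    rw [pow_one]
    have h4 : |(((e m k : ℕ) : ℤ) : ℝ)| = (e m k : ℝ) := by
      rw [Int.cast_natCast, abs_of_nonneg (by positivity)]
    rw [h4]
    exact h3.trans h2
  set es : Fin n → Modr U X := fun k => ⟨_, hes k⟩ with hesdef
  have hlam : ∀ m k, lam m (es k) = (e m k : ℚ) := fun m k => rfl
  -- generators of the ideal
  obtain ⟨q, Fs, hFs, hgen⟩ := hNOEF U X n (vanI T0) (fun F h => null_mem h)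
  have hst : ∀ (i : Fin n) (a : Fin q), ∃ Q : Fin q → RP U X n,
      i ∈ J → Null (EE J G i (Fs a) - ∑ c, Q c * Fs c) := by
    intro i a
    by_cases hi : i ∈ J
    · obtain ⟨Q, hQ⟩ := hgen _ (mem_vanI.2 (hSTB U X n T0 J G g hX hG hBox0 hch i hi (Fs a)
        (mem_vanI.1 (hFs a))))
      exact ⟨Q, fun _ => hQ⟩
    · exact ⟨0, fun h => absurd h hi⟩
  choose Q hQ using hst
  have hvs : ∀ (s : Fin 3) (i : Fin n), ∃ Q : Fin q → RP U X n,
      i ∈ J → Null (xi J G es sd i s - xi J G es sd i 2 - ∑ c, Q c * Fs c) := by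
    intro s i
    by_cases hi : i ∈ J
    · obtain ⟨Q, hQ⟩ := hgen _ (mem_vanI.2 (hVST U X n T0 J G g e sd α es hX hG hBox0 hch hE0
        (Eventually.of_forall hlam) i hi s))
      exact ⟨Q, fun _ => hQ⟩
    · exact ⟨0, fun h => absurd h hi⟩
  choose Q' hQ' using hvs
  -- a large family where the product of the derivatives is not zero
  have hnb : ¬ Van T0 (bb J G) := by
    unfold bb
    exact not_van_prod hPRM hX hG _ _ (fun k hk => hch.nz k (by simpa using hk))
  obtain ⟨T1, hT1, hL1, hn1⟩ := (hPRM U X n T0 hX hG).2 (bb J G) T0 hnb (fun m => Subset.rfl) hG.1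
  have hbb : ∀ᶠ m in (U : Filter ℕ), ∀ x : Fin n → ℕ,
      ev m x (bb J G) = ((eval (pt x) (bb J (g m)) : ℤ) : ℚ) := by
    filter_upwards [hch.lvg] with m hm x
    have h1 := (hMAP (Modr U X) ℚ (lam m) n J G).1
    have h2 := (hMAP ℤ ℚ (Int.castRingHom ℚ) n J (g m)).1
    have h3 : lv m (bb J G) = map (Int.castRingHom ℚ) (bb J (g m)) := by
      unfold lv
      rw [h1, h2]
      congr 1
      funext k
      exact hm k
    unfold ev
    rw [h3, eval_pt]
  obtain ⟨B, hB⟩ := hHTE U X n (bb J G)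
  obtain ⟨η, p, T', hη, hT', hL', hsel⟩ := hSEL U X n T1 (fun m x => eval (pt x) (bb J (g m)))
    hX hL1 (by
      intro c hc
      filter_upwards [hbb, hB, log_mm hX B c hc, hBox0] with m h1 h2 h3 h4 x hx
      have h5 := hn1 m x hx
      have h6 := h2 x (fun k => (h4 x (hT1 m hx) k).2)
      rw [h1 x] at h5 h6
      have h7 : eval (pt x) (bb J (g m)) ≠ 0 := by
        intro h0
        apply h5
        rw [h0]
        simp
      refine ⟨h7, ?_⟩
      have h8 : (0 : ℝ) < |((eval (pt x) (bb J (g m)) : ℤ) : ℝ)| := by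
        rw [abs_pos]
        exact_mod_cast h7
      have h9 : |((eval (pt x) (bb J (g m)) : ℤ) : ℝ)| ≤ mm X m ^ B := by
        simpa using h6
      calc Real.log |((eval (pt x) (bb J (g m)) : ℤ) : ℝ)| ≤ Real.log (mm X m ^ B) :=
            Real.log_le_log h8 h9
        _ = B * Real.log (mm X m) := Real.log_pow _ _
        _ ≤ X m ^ c := h3)
  -- one level
  have hA : ∀ᶠ m in (U : Filter ℕ), ∀ i a, i ∈ J →
      lv m (EE J G i (Fs a) - ∑ c, Q i a c * Fs c) = 0 := by
    rw [eventually_all]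
    intro i
    rw [eventually_all]
    intro a
    by_cases hi : i ∈ J
    · have := hQ i a hi
      unfold Null at this
      filter_upwards [this] with m hm _ using hm
    · exact Eventually.of_forall fun m h => absurd h hi
  have hA' : ∀ᶠ m in (U : Filter ℕ), ∀ s i, i ∈ J →
      lv m (xi J G es sd i s - xi J G es sd i 2 - ∑ c, Q' s i c * Fs c) = 0 := by
    rw [eventually_all]
    intro s
    rw [eventually_all]
    intro i
    by_cases hi : i ∈ J
    · have := hQ' s i hi
      unfold Null at this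
      filter_upwards [this] with m hm _ using hm
    · exact Eventually.of_forall fun m h => absurd h hi
  have hF0 : ∀ᶠ m in (U : Filter ℕ), ∀ a, ∀ x ∈ T0 m, ev m x (Fs a) = 0 := by
    rw [eventually_all]
    intro a
    exact mem_vanI.1 (hFs a)
  have hG0 : ∀ᶠ m in (U : Filter ℕ), ∀ k, k ∉ J → ∀ x ∈ T0 m, ev m x (G k) = 0 := by
    rw [eventually_all]
    intro k
    by_cases hk : k ∈ J
    · exact Eventually.of_forall fun m h => absurd hk h
    · have := hch.van k hk
      unfold Van at this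
      filter_upwards [this] with m hm _ using hm
  obtain ⟨m, hm, h1, h2, h3, h4, h5, h6, h7, h8, h9, h10, h11⟩ :=
    (hsel.and (hA.and (hA'.and (hF0.and (hG0.and (hBox0.and (hch.vr.and (hch.lvg.and
      ((large_two hX hL').and (hE0.pos.and (hE0.sum.and (hE0.cop.and hE0.inj)))))))))))).exists
  obtain ⟨P, hP, x, hx, hne⟩ := Finset.one_lt_card.1 (show 1 < (T' m).card by omega)
  have hP0 : P ∈ T0 m := hT1 m (hT' m hP)
  have hx0 : x ∈ T0 m := hT1 m (hT' m hx)
  have hgz : ∀ y ∈ T0 m, ∀ k, k ∉ J → eval (pt y) (g m k) = 0 := by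
    intro y hy k hk
    have e1 := h4 k hk y hy
    unfold ev at e1
    rw [h7 k, eval_pt] at e1
    exact_mod_cast e1
  have key : ∀ s : Fin 3, tm (e m) sd (α m) s P * tm (e m) sd (α m) 2 x =
      tm (e m) sd (α m) s x * tm (e m) sd (α m) 2 P := by
    intro s
    refine hPATH n (p m) q J (g m) (fun k => lv m (G k)) (e m) sd (α m) s 2
      (fun a => lv m (Fs a)) (fun i a c => lv m (Q i a c)) (fun i c => lv m (Q' s i c)) P x hm.1
      (fun k hk => ⟨h6 k hk, h7 k⟩) ?_ ?_ ?_ (fun k => (h5 P hP0 k).1)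
      (fun k hk => ⟨hgz P hP0 k hk, hgz x hx0 k hk⟩) (fun k => ((hm.2.2.2 x hx).2 P hP k))
      (hm.2.2.2 P hP).1
    · intro i hi a
      have e1 := h1 i a hi
      unfold lv at e1
      rw [map_sub, sub_eq_zero, (hMAP (Modr U X) ℚ (lam m) n J G).2.1, map_sum] at e1
      simp only [map_mul] at e1
      exact e1
    · intro i hi
      have e1 := h2 s i hi
      unfold lv at e1
      rw [map_sub, map_sub, sub_eq_zero, (hMAP (Modr U X) ℚ (lam m) n J G).2.2.1,
        (hMAP (Modr U X) ℚ (lam m) n J G).2.2.1, map_sum] at e1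
      simp only [map_mul] at e1
      exact e1
    · intro a
      exact h3 a P hP0
  have k0 := key 0
  have hpP : ∀ s, 0 < tm (e m) sd (α m) s P := fun s => tm_pos h9 (fun k => (h5 P hP0 k).1)
  have hpx : ∀ s, 0 < tm (e m) sd (α m) s x := fun s => tm_pos h9 (fun k => (h5 x hx0 k).1)
  obtain ⟨r1, r2, r3⟩ := prop_eq (hpx 0) (h10 P hP0) (h10 x hx0) (h11.1 P hP0)
    (h11.1 x hx0) k0
  apply hne
  apply h11.2 P hP0 x hx0
  intro s
  fin_cases s
  · exact r1
  · exact r2
  · exact r3

end Pool.PW
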